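import Mathlib
import Pool.Agent.Helper43.UN.GoalsH

/-! Project UN: packet ShD (dominating point, the shape). -/

set_option autoImplicit false

namespace Pool.Agent.Helper35.UN

open Finset
open Pool.Agent.Helper43.UN
open Pool.Agent.Helper18.UW (lg)

lemma area_low (δ d : ℕ) (h : δ ≤ d) :
    (δ + 1) * (d + 1 - δ) ≤ ∑ j ∈ range (d + 1), (min δ (d - j) + 1) := by
  calc (δ + 1) * (d + 1 - δ) = ∑ _j ∈ range (d + 1 - δ), (δ + 1) := by
        rw [sum_const, card_range, smul_eq_mul, mul_comm]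
    _ = ∑ j ∈ range (d + 1 - δ), (min δ (d - j) + 1) := by
        apply sum_congr rfl
        intro j hj
        rw [mem_range] at hj
        omega
    _ ≤ ∑ j ∈ range (d + 1), (min δ (d - j) + 1) := by
        apply sum_le_sum_of_subset
        intro j hj
        rw [mem_range] at hj ⊢
        omega

lemma le_Q (M : ℕ) : M ≤ 2 ^ 400 * lg M ^ 3 * M := by
  have h1 : 1 ≤ lg M ^ 3 := by
    have h2 : 1 ≤ lg M := by
      unfold lg
      omega
    exact Nat.one_le_pow _ _ h2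
  have h3 : 1 ≤ 2 ^ 400 * lg M ^ 3 := Nat.mul_pos (by positivity) h1
  calc M = 1 * M := (one_mul M).symm
    _ ≤ _ := Nat.mul_le_mul_right _ h3

theorem goalShD : GoalShD := by
  intro M δ d hM hd hQ
  have hMδ : M ≤ δ := (le_Q M).trans hQ
  have harea := area_low δ d (by omega)
  obtain ⟨Q, hQe⟩ : ∃ Q, Q = 2 ^ 400 * lg M ^ 3 * M := ⟨_, rfl⟩
  refine ⟨hM, hMδ, ?_, ?_, ?_, ?_, by norm_num, ?_, ?_, ?_, ?_, ?_, ?_, ?_⟩
  · rw [← hQe] at hQ ⊢
    omega
  · rw [← hQe] at hQ ⊢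
    omega
  · omega
  · omega
  · show min δ (d - 0) + 1 = δ + 1
    omega
  · intro j _
    show 1 ≤ min δ (d - j) + 1
    omega
  · intro j _
    show min δ (d - (j + 1)) + 1 ≤ min δ (d - j) + 1
    omega
  · intro j hj
    show min δ (d - (j + 1)) + 1 < min δ (d - j) + 1 ∨ δ ≤ min δ (d - (j + 1)) + 1
    omega
  · intro j hj
    show min δ (d - j) + 1 = min δ (d - (j + 1)) + 1 + 0
    omega
  · intro j _ _
    show min δ (d - j) + 1 ≤ min δ (d - (j + 1)) + 1 + 9
    omega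
  · show (δ + 1) * (d + 1) ≤ 5 * ∑ j ∈ range (d + 1), (min δ (d - j) + 1)
    have h1 : (δ + 1) * (d + 1) ≤ (δ + 1) * (5 * (d + 1 - δ)) :=
      Nat.mul_le_mul_left _ (by omega)
    have h2 : (δ + 1) * (5 * (d + 1 - δ)) = 5 * ((δ + 1) * (d + 1 - δ)) := by ring
    rw [h2] at h1
    omega

end Pool.Agent.Helper35.UN
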