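import Mathlib
import Pool.Agent.Helper35.UN.ShD

/-! Project UN: packet MD (dominating point). -/

set_option autoImplicit false

namespace Pool.Agent.Helper35.UN

open Finset
open Pool.Agent.Helper43.UN
open Pool.Agent.Helper18.UW (lg)
open Pool.Agent.Helper43.Ah (rowsD mem_rowsD card_rowsD)
open Helper18.Cusp (GoodFor Concl)
open Helper18.Np (long_finish goodFor_congr Ico_disj sum_C_long)

theorem goalMD : GoalMD := by
  intro hRed hSh s m d hm hs hd h9 hδ hQ
  apply long_finish hm hs hd h9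
  obtain ⟨δ, hδe⟩ : ∃ δ, δ = d - m 0 := ⟨_, rfl⟩
  rw [← hδe] at hδ hQ ⊢
  apply Helper18.Cusp.GoodFor.swap
  refine goodFor_congr (hRed (Ico 1 9) (Ico 9 s) m (m 9) δ (d + 1) (δ + 1) 0 _
    (hSh (m 9) δ d h9 hδ hQ) (Ico_disj 1 s) ?_ ?_ ?_) ?_
  · intro k hk
    rw [mem_Ico] at hk
    have : m k ≤ m 1 := hm hk.1
    omega
  · intro k hk
    rw [mem_Ico] at hk
    exact hm hk.1
  · rw [card_rowsD]
    have h1 := sum_C_long hm (show m 1 + m 2 ≤ δ by omega)
    have h2 := area_low δ d (by omega)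
    obtain ⟨e, he⟩ : ∃ e, d = 32 * δ + 1 + e := ⟨d - (32 * δ + 1), by omega⟩
    have h3 : d + 1 - δ = 31 * δ + 2 + e := by omega
    rw [h3] at h2
    have h4 : 8 * (δ * δ + 2 * δ) ≤ (δ + 1) * (31 * δ + 2 + e) := by nlinarith
    calc 8 * ∑ k ∈ Ico 1 9, (m k + 1).choose 2 ≤ 8 * (δ * δ + 2 * δ) :=
          Nat.mul_le_mul_left _ h1
      _ ≤ (δ + 1) * (31 * δ + 2 + e) := h4
      _ ≤ _ := h2
  · intro x
    rw [mem_rowsD, mem_image]
    constructor
    · rintro ⟨y, hy, rfl⟩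
      rw [mem_rowsD] at hy
      simp only [Prod.fst_swap, Prod.snd_swap]
      omega
    · intro hx
      refine ⟨x.swap, ?_, Prod.swap_swap x⟩
      rw [mem_rowsD]
      simp only [Prod.fst_swap, Prod.snd_swap]
      omega

end Pool.Agent.Helper35.UN
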