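import Pool.Agent.Helper79.UN.NGoals
import Pool.Agent.Helper79.UN.Lib

/-! # MP_57a173_lc: packet SMC -/

namespace UN.PkSMC

open Pool.Agent.Helper97.Ku NU UL

section Alg

variable {L : Type} [CompleteBooleanAlgebra L]

theorem le_iffV {a b c : L} : a ≤ iffV b c ↔ a ⊓ b ≤ c ∧ a ⊓ c ≤ b := by
  unfold iffV
  rw [le_inf_iff, le_himp_iff, le_himp_iff]

theorem iffV_symm {a b c : L} (h : a ≤ iffV b c) : a ≤ iffV c b :=
  le_iffV.2 ⟨(le_iffV.1 h).2, (le_iffV.1 h).1⟩

theorem iffV_trans {a b c d : L} (h : a ≤ iffV b c) (k : a ≤ iffV c d) : a ≤ iffV b d := by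
  rw [le_iffV] at *
  exact ⟨le_trans (le_inf inf_le_left h.1) k.1, le_trans (le_inf inf_le_left k.2) h.2⟩

theorem iffV_compl {a b c : L} (h : a ≤ iffV b c) : a ≤ iffV bᶜ cᶜ := by
  rw [le_iffV] at *
  constructor
  · rw [le_compl_iff_disjoint_right, disjoint_iff, eq_bot_iff]
    calc a ⊓ bᶜ ⊓ c ≤ b ⊓ bᶜ :=
          le_inf (le_trans (le_inf (le_trans inf_le_left inf_le_left) inf_le_right) h.2)
            (le_trans inf_le_left inf_le_right)
      _ ≤ ⊥ := by rw [inf_compl_eq_bot]
  · rw [le_compl_iff_disjoint_right, disjoint_iff, eq_bot_iff]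
    calc a ⊓ cᶜ ⊓ b ≤ c ⊓ cᶜ :=
          le_inf (le_trans (le_inf (le_trans inf_le_left inf_le_left) inf_le_right) h.1)
            (le_trans inf_le_left inf_le_right)
      _ ≤ ⊥ := by rw [inf_compl_eq_bot]

theorem iffV_iSup {ι : Type*} {a : L} {f g : ι → L} (h : ∀ i, a ≤ iffV (f i) (g i)) :
    a ≤ iffV (⨆ i, f i) (⨆ i, g i) := by
  rw [le_iffV]
  constructor
  · rw [inf_iSup_eq]
    exact iSup_mono fun i => (le_iffV.1 (h i)).1
  · rw [inf_iSup_eq]
    exact iSup_mono fun i => (le_iffV.1 (h i)).2

theorem iffV_inf {a b c : L} (h : a ≤ b) : a ≤ iffV (b ⊓ c) c := by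
  rw [le_iffV]
  exact ⟨le_trans inf_le_right inf_le_right, le_inf (le_trans inf_le_left h) inf_le_right⟩

theorem gdV_eq (q : ℕ → List Bool → L) (r : ℕ → L) : gdV q r = (fsV q r)ᶜ := by
  unfold gdV fsV
  rw [compl_iSup]
  exact iInf_congr fun n => (compl_compl _).symm

theorem basV_nil (r : ℕ → L) : basV r [] = ⊤ := by
  unfold basV
  rw [eq_top_iff]
  exact le_iInf fun i => absurd i.2 (by simp)

theorem basV_snoc (r : ℕ → L) (u : List Bool) (c : Bool) :
    basV r u ⊓ (if c = true then r u.length else (r u.length)ᶜ) ≤ basV r (u ++ [c]) := by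
  refine le_iInf fun i => ?_
  obtain ⟨i, hi⟩ := i
  rcases lt_or_ge i u.length with h | h
  · refine le_trans inf_le_left (le_trans (iInf_le _ (⟨i, h⟩ : Fin u.length)) ?_)
    simp [List.getElem_append_left h]
  · have h' : i = u.length := by
      simp at hi
      omega
    subst h'
    refine le_trans inf_le_right ?_
    simp

theorem basV_last (r : ℕ → L) (u : List Bool) :
    basV r (u ++ [false]) ≤ (r u.length)ᶜ := by
  refine le_trans (iInf_le _ (⟨u.length, by simp⟩ : Fin (u ++ [false]).length)) ?_
  simp

theorem cov (r : ℕ → L) (n : ℕ) : (⨆ u : List Bool, ⨆ _ : u.length = n, basV r u) = ⊤ := by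
  induction n with
  | zero =>
    rw [eq_top_iff]
    refine le_trans ?_ (le_iSup _ ([] : List Bool))
    refine le_trans ?_ (le_iSup _ rfl)
    rw [basV_nil]
  | succ n ih =>
    rw [eq_top_iff, ← ih]
    refine iSup_le fun u => iSup_le fun hu => ?_
    have h1 := basV_snoc r u true
    have h2 := basV_snoc r u false
    simp only [if_true, Bool.false_eq_true, if_false] at h1 h2
    have h3 : basV r u ≤ basV r (u ++ [true]) ⊔ basV r (u ++ [false]) := by
      calc basV r u = basV r u ⊓ (r u.length ⊔ (r u.length)ᶜ) := by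
            rw [sup_compl_eq_top, inf_top_eq]
        _ ≤ _ := by
            rw [inf_sup_left]
            exact sup_le_sup h1 h2
    refine le_trans h3 (sup_le ?_ ?_)
    · refine le_trans ?_ (le_iSup _ (u ++ [true]))
      exact le_iSup (fun _ : (u ++ [true]).length = n + 1 => basV r (u ++ [true])) (by simp [hu])
    · refine le_trans ?_ (le_iSup _ (u ++ [false]))
      exact le_iSup (fun _ : (u ++ [false]).length = n + 1 => basV r (u ++ [false])) (by simp [hu])

end Alg

theorem smc_pf (cmp_ : U_CMP) (ex2 : U_EX2) (mks : U_MKS) (att : U_ATT) : U_SMC := by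
  classical
  intro L _ K A b hGF
  obtain ⟨e1, e2, e3, e4, -, -, e7, -⟩ := ex2 L Empty (fun j => j.elim) K A
  have hcm := (cmp_ L K).1
  constructor
  · refine mks L K (psF K A) b e7 ?_ ?_ ?_
    · refine le_trans ?_ (le_iSup _ (cmp K fun _ => ⊥))
      have hm : ∀ x : BSet L, x.mem (cmp K fun _ => ⊥) = ⊥ := fun x => by
        rw [hcm _ (BSet.Ext.const ⊥) x, inf_bot_eq]
      refine le_inf ?_ ?_
      · refine le_iInf fun t => ?_
        rw [hm, bot_himp]
        exact le_top
      · refine le_trans ?_ (le_iSup _ (fun _ _ => ⊤))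
        refine le_iInf fun x => ?_
        have hf : fsV (fun _ _ => (⊤ : L)) (rl A x) = ⊥ := by
          unfold fsV opV
          rw [eq_bot_iff]
          refine iSup_le fun n => ?_
          have : (⨆ σ : List Bool, ((⊤ : L) ⊓ basV (rl A x) σ)) = ⊤ := by
            rw [eq_top_iff]
            refine le_trans ?_ (le_iSup _ ([] : List Bool))
            rw [basV_nil, inf_top_eq]
          rw [this, compl_top]
        rw [hm, hf]
        unfold iffV
        simp
    · intro Y
      have hpsi : psF K A Y = ⨆ q : ℕ → List Bool → L, cF K A Y q := rfl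
      rw [hpsi, inf_iSup_eq, inf_iSup_eq]
      refine iSup_le fun q => ?_
      obtain ⟨q', hq'⟩ := hGF q
      refine le_trans ?_ (le_iSup _ q')
      refine le_iInf fun x => ?_
      rw [le_himp_iff, hcm _ (BSet.Ext.compl (BSet.Ext.mem_left Y)) x]
      set a : L := b ⊓ (subV Y K ⊓ cF K A Y q) ⊓ x.mem K with ha
      have haK : a ≤ x.mem K := inf_le_right
      have h1 : a ≤ iffV (x.mem Y) (fsV q (rl A x)) := by
        rw [← le_himp_iff]
        exact le_trans (le_trans inf_le_right inf_le_right) (iInf_le _ x)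
      have h2 : a ≤ iffV (gdV q (rl A x)) (fsV q' (rl A x)) := by
        rw [← le_himp_iff]
        exact le_trans inf_le_left (le_trans hq' (iInf_le _ x))
      rw [gdV_eq] at h2
      exact iffV_trans (iffV_inf haK) (iffV_trans (iffV_compl h1) h2)
    · intro t
      choose q hq using fun n => att L K A (t n)
      refine le_trans ?_ (le_iSup _ (fun k => q (Nat.unpair k).1 (Nat.unpair k).2))
      refine le_iInf fun x => ?_
      rw [le_himp_iff]
      rw [hcm _ (BSet.Ext.iSup fun n => BSet.Ext.mem_left (t n)) x]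
      set a : L := b ⊓ (⨅ n, (subV (t n) K ⊓ psF K A (t n))) ⊓ x.mem K with ha
      have haK : a ≤ x.mem K := inf_le_right
      have h1 : ∀ n, a ≤ iffV (x.mem (t n)) (fsV (q n) (rl A x)) := fun n => by
        rw [← le_himp_iff]
        exact le_trans inf_le_right (le_trans (iInf_le _ n) (le_trans inf_le_right
          (le_trans (hq n) (iInf_le _ x))))
      have h2 : fsV (fun k => q (Nat.unpair k).1 (Nat.unpair k).2) (rl A x) =
          ⨆ n, fsV (q n) (rl A x) := by
        unfold fsV
        apply le_antisymm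
        · refine iSup_le fun k => ?_
          exact le_trans (le_iSup (fun m => (opV (q (Nat.unpair k).1 m) (rl A x))ᶜ)
            (Nat.unpair k).2)
            (le_iSup (fun n => ⨆ m, (opV (q n m) (rl A x))ᶜ) (Nat.unpair k).1)
        · refine iSup_le fun n => iSup_le fun m => ?_
          have := le_iSup (fun k => (opV (q (Nat.unpair k).1 (Nat.unpair k).2) (rl A x))ᶜ)
            (Nat.pair n m)
          simpa using this
      rw [h2]
      exact iffV_trans (iffV_inf haK) (iffV_iSup h1)
  · intro n
    let q : ℕ → List Bool → L := fun _ s =>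
      if ∃ u : List Bool, u.length = n ∧ s = u ++ [false] then ⊤ else ⊥
    have hop : ∀ (m : ℕ) (r : ℕ → L), opV (q m) r = (r n)ᶜ := fun m r => by
      unfold opV
      apply le_antisymm
      · refine iSup_le fun s => ?_
        by_cases h : ∃ u : List Bool, u.length = n ∧ s = u ++ [false]
        · obtain ⟨u, hu, rfl⟩ := h
          refine le_trans inf_le_right ?_
          rw [← hu]
          exact basV_last r u
        · have : q m s = ⊥ := if_neg h
          rw [this, bot_inf_eq]
          exact bot_le
      · calc (r n)ᶜ = (⨆ u : List Bool, ⨆ _ : u.length = n, basV r u) ⊓ (r n)ᶜ := by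
              rw [cov, top_inf_eq]
          _ ≤ _ := by
              rw [iSup_inf_eq]
              refine iSup_le fun u => ?_
              rw [iSup_inf_eq]
              refine iSup_le fun hu => ?_
              refine le_trans ?_ (le_iSup _ (u ++ [false]))
              have h1 : q m (u ++ [false]) = ⊤ := if_pos ⟨u, hu, rfl⟩
              rw [h1, top_inf_eq]
              have h2 := basV_snoc r u false
              simp only [Bool.false_eq_true, if_false] at h2
              rw [hu] at h2
              exact h2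
    refine le_trans ?_ (le_iSup _ q)
    refine le_iInf fun x => ?_
    rw [le_himp_iff, hcm _ (e1 n) x]
    have hf : fsV q (rl A x) = rl A x n := by
      unfold fsV
      apply le_antisymm
      · refine iSup_le fun m => ?_
        rw [hop m, compl_compl]
      · refine le_trans ?_ (le_iSup _ 0)
        rw [hop 0, compl_compl]
    rw [hf]
    exact iffV_inf inf_le_right

end UN.PkSMC
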